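import Pool.Agent.helper96.DP.SpecD

/-!
# Module D1 of project dp: the expected number of crossing interface edges
-/

namespace DP

open MeasureTheory

/-! ## Elementary facts on the distance and on connections -/

theorem D1_sd_comm (u v : V) : sd u v = sd v u := by
  unfold sd
  omega

theorem D1_sd_tri (u v w : V) : sd u w ≤ sd u v + sd v w := by
  unfold sd
  omega

theorem D1_adj_symm {u v : V} (h : Adj u v) : Adj v u := by
  obtain ⟨h1, h2⟩ := h
  refine ⟨by rw [D1_sd_comm]; exact h1, ?_⟩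
  rcases h2 with h2 | h2 | h2
  · exact Or.inl h2.symm
  · exact Or.inr (Or.inl h2.symm)
  · by_cases e1 : u.1 = v.1
    · exact Or.inl e1.symm
    · by_cases e2 : u.2 = v.2
      · exact Or.inr (Or.inl e2.symm)
      · right; right
        unfold sd at h1
        rw [Int.even_iff] at h2 ⊢
        omega

theorem D1_con_symm {W : Set V} {u v : V} (h : Con W u v) : Con W v u := by
  obtain ⟨hu, hp⟩ := h
  induction hp with
  | refl => exact ⟨hu, Relation.ReflTransGen.refl⟩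
  | @tail b c hab hbc ih =>
    refine ⟨hbc.2, ?_⟩
    refine Relation.ReflTransGen.head ⟨D1_adj_symm hbc.1, ih.1⟩ ih.2

theorem D1_con_mono {W W' : Set V} {u v : V} (hW : W ⊆ W') (h : Con W u v) : Con W' u v := by
  obtain ⟨hu, hp⟩ := h
  refine ⟨hW hu, ?_⟩
  induction hp with
  | refl => exact Relation.ReflTransGen.refl
  | tail _ hbc ih => exact Relation.ReflTransGen.tail ih ⟨hbc.1, hW hbc.2⟩

/-- The first time a path leaves a box. -/
theorem D1_exit {W : Set V} {y : V} {ρ : ℕ} {a z : V} (h : Con W a z) (ha : sd y a ≤ ρ)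
    (hz : ρ ≤ sd y z) : ∃ z', sd y z' = ρ ∧ Con (W ∩ box y ρ) a z' := by
  obtain ⟨haW, hp⟩ := h
  induction hp using Relation.ReflTransGen.head_induction_on with
  | refl => exact ⟨z, le_antisymm ha hz, ⟨haW, ha⟩, Relation.ReflTransGen.refl⟩
  | @head a c hac hcz ih =>
    by_cases hr : sd y a = ρ
    · exact ⟨a, hr, ⟨haW, ha⟩, Relation.ReflTransGen.refl⟩
    · have h1 := D1_sd_tri y a c
      have h2 : sd a c = 1 := hac.1.1
      obtain ⟨z', hz', hc⟩ := ih (by omega) hac.2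
      refine ⟨z', hz', ⟨haW, ha⟩, ?_⟩
      exact Relation.ReflTransGen.head ⟨hac.1, hc.1⟩ hc.2

/-! ## Measurability of local events -/

theorem D1_meas {F : Set (V → Bool)} {Λ : Finset V} (h : Dep F (Λ : Set V)) :
    MeasurableSet F := by
  classical
  have hF : F = (fun b : V → Bool => fun v : Λ => b v) ⁻¹'
      ((fun b : V → Bool => fun v : Λ => b v) '' F) := by
    ext b
    constructor
    · intro hb
      exact ⟨b, hb, rfl⟩
    · rintro ⟨b', hb', he⟩
      refine (h b b' ?_).2 hb'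
      intro v hv
      exact (congrFun he ⟨v, hv⟩).symm
  rw [hF]
  have hm : Measurable (fun b : V → Bool => fun v : Λ => b v) :=
    measurable_pi_lambda _ fun v => measurable_pi_apply _
  exact hm (Set.toFinite _).measurableSet

instance D1_prob : IsProbabilityMeasure P1 := by
  unfold P1
  infer_instance

theorem D1_Pr_nonneg (F : Set (V → Bool)) : 0 ≤ Pr F := measureReal_nonneg

theorem D1_Pr_le_one (F : Set (V → Bool)) : Pr F ≤ 1 := measureReal_le_one

theorem D1_Pr_mono {F G : Set (V → Bool)} (h : F ⊆ G) : Pr F ≤ Pr G :=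
  measureReal_mono h

theorem D1_Pr_union (F G : Set (V → Bool)) : Pr (F ∪ G) ≤ Pr F + Pr G :=
  measureReal_union_le F G

/-- Sum of the probabilities of events in terms of their number. -/
theorem D1_count {ι : Type} [DecidableEq ι] (s : Finset ι) (A : ι → Set (V → Bool))
    (hA : ∀ i ∈ s, MeasurableSet (A i)) (q : ℕ → ℝ)
    (hq : ∀ t, 1 ≤ t → t ≤ s.card →
      Pr {b | ∃ I : Finset ι, I ⊆ s ∧ t ≤ I.card ∧ ∀ i ∈ I, b ∈ A i} ≤ q t) :
    ∑ i ∈ s, Pr (A i) ≤ ∑ t ∈ Finset.Icc 1 s.card, q t := by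
  classical
  set N : (V → Bool) → ℕ := fun b => (s.filter fun i => b ∈ A i).card with hN
  have hmeas : ∀ i ∈ s, Measurable ((A i).indicator (fun _ => (1 : ℝ))) := fun i hi =>
    measurable_const.indicator (hA i hi)
  have hNm : Measurable N := by
    have : N = fun b => ∑ i ∈ s, (A i).indicator (fun _ => (1 : ℕ)) b := by
      funext b
      simp only [hN, Finset.card_filter, Set.indicator_apply]
    rw [this]
    refine Finset.measurable_sum s fun i hi => measurable_const.indicator (hA i hi)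
  have hset : ∀ t, MeasurableSet {b | t ≤ N b} := fun t => hNm measurableSet_Ici
  have h1 : ∑ i ∈ s, Pr (A i) = ∫ b, (∑ i ∈ s, (A i).indicator (fun _ => (1 : ℝ)) b) ∂P1 := by
    rw [integral_finsetSum]
    · refine Finset.sum_congr rfl fun i hi => ?_
      rw [integral_indicator_const _ (hA i hi)]
      simp [Pr]
    · intro i hi
      exact (integrable_const (1 : ℝ)).indicator (hA i hi)
  have h2 : ∑ t ∈ Finset.Icc 1 s.card, Pr {b | t ≤ N b} =
      ∫ b, (∑ t ∈ Finset.Icc 1 s.card, {b | t ≤ N b}.indicator (fun _ => (1 : ℝ)) b) ∂P1 := by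
    rw [integral_finsetSum]
    · refine Finset.sum_congr rfl fun t _ => ?_
      rw [integral_indicator_const _ (hset t)]
      simp [Pr]
    · intro t _
      exact (integrable_const (1 : ℝ)).indicator (hset t)
  have h3 : ∀ b, (∑ i ∈ s, (A i).indicator (fun _ => (1 : ℝ)) b) =
      ∑ t ∈ Finset.Icc 1 s.card, {b | t ≤ N b}.indicator (fun _ => (1 : ℝ)) b := by
    intro b
    have e1 : (∑ i ∈ s, (A i).indicator (fun _ => (1 : ℝ)) b) = (N b : ℝ) := by
      simp only [hN, Finset.card_filter, Set.indicator_apply]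
      push_cast
      rfl
    have hNle : N b ≤ s.card := Finset.card_filter_le _ _
    have e2 : (∑ t ∈ Finset.Icc 1 s.card, {b | t ≤ N b}.indicator (fun _ => (1 : ℝ)) b) =
        (((Finset.Icc 1 s.card).filter fun t => t ≤ N b).card : ℝ) := by
      rw [Finset.card_filter]
      push_cast
      refine Finset.sum_congr rfl fun t _ => ?_
      simp only [Set.indicator_apply, Set.mem_ofPred_eq]
    rw [e1, e2]
    have e3 : ((Finset.Icc 1 s.card).filter fun t => t ≤ N b) = Finset.Icc 1 (N b) := by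
      ext t
      simp only [Finset.mem_filter, Finset.mem_Icc]
      omega
    rw [e3]
    simp
  rw [h1]
  simp_rw [h3]
  rw [← h2]
  refine Finset.sum_le_sum fun t ht => ?_
  rw [Finset.mem_Icc] at ht
  refine le_trans (D1_Pr_mono ?_) (hq t ht.1 ht.2)
  intro b hb
  refine ⟨s.filter fun i => b ∈ A i, Finset.filter_subset _ _, hb, ?_⟩
  intro i hi
  exact (Finset.mem_filter.1 hi).2

/-- A geometric sum. -/
theorem D1_geom {lam : ℝ} (h0 : 0 ≤ lam) (h1 : lam < 1) (T : ℕ) :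
    ∑ t ∈ Finset.Icc 1 T, lam ^ (t / 2 + 1) ≤ 2 / (1 - lam) := by
  have key : ∀ m : ℕ, ∑ t ∈ Finset.range (2 * m), lam ^ (t / 2) =
      2 * ∑ i ∈ Finset.range m, lam ^ i := by
    intro m
    induction m with
    | zero => simp
    | succ m ih =>
      rw [show 2 * (m + 1) = 2 * m + 1 + 1 by ring, Finset.sum_range_succ, Finset.sum_range_succ,
        ih, Finset.sum_range_succ, show (2 * m) / 2 = m by omega,
        show (2 * m + 1) / 2 = m by omega]
      ring
  have hgeo : ∀ m : ℕ, ∑ i ∈ Finset.range m, lam ^ i ≤ 1 / (1 - lam) := by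
    intro m
    have h := geom_sum_eq (ne_of_lt h1) m
    rw [h, show (lam ^ m - 1) / (lam - 1) = (1 - lam ^ m) / (1 - lam) by
      rw [← neg_div_neg_eq]; congr 1 <;> ring]
    apply div_le_div_of_nonneg_right _ (by linarith)
    have := pow_nonneg h0 m
    linarith
  calc ∑ t ∈ Finset.Icc 1 T, lam ^ (t / 2 + 1)
      ≤ ∑ t ∈ Finset.Icc 1 T, lam ^ (t / 2) := by
        refine Finset.sum_le_sum fun t _ => ?_
        exact pow_le_pow_of_le_one h0 h1.le (by omega)
    _ ≤ ∑ t ∈ Finset.range (2 * (T + 1)), lam ^ (t / 2) := by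
        refine Finset.sum_le_sum_of_subset_of_nonneg ?_ fun t _ _ => pow_nonneg h0 _
        intro t ht
        rw [Finset.mem_Icc] at ht
        rw [Finset.mem_range]
        omega
    _ = 2 * ∑ i ∈ Finset.range (T + 1), lam ^ i := key _
    _ ≤ 2 * (1 / (1 - lam)) := by
        have := hgeo (T + 1)
        linarith
    _ = 2 / (1 - lam) := by ring

/-! ## One window -/

open Classical in
/-- Colour of the site number `i` if it is connected to distance `ρ` from `y`. -/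
noncomputable def D1_f (c : V → Bool) (U : ℤ → V) (H : Set V) (y : V) (ρ n : ℕ) (i : ℤ) :
    Option Bool :=
  if 0 < i ∧ i ≤ 8 * n ∧ ∃ z, sd y z = ρ ∧ Conn c (c (U i)) H (U i) z then some (c (U i)) else none

theorem D1_f_some {c : V → Bool} {U : ℤ → V} {H : Set V} {y : V} {ρ n : ℕ} {i : ℤ} {k : Bool}
    (h : D1_f c U H y ρ n i = some k) :
    0 < i ∧ i ≤ 8 * n ∧ c (U i) = k ∧ ∃ z, sd y z = ρ ∧ Conn c k H (U i) z := by
  unfold D1_f at h
  split_ifs at h with hc
  obtain ⟨h1, h2, h3⟩ := hc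
  have e : c (U i) = k := by simpa using h
  rw [e] at h3
  exact ⟨h1, h2, e, h3⟩

theorem D1_f_of {c : V → Bool} {U : ℤ → V} {H : Set V} {y : V} {ρ n : ℕ} {i : ℤ}
    (h1 : 0 < i) (h2 : i ≤ 8 * n) (h3 : ∃ z, sd y z = ρ ∧ Conn c (c (U i)) H (U i) z) :
    D1_f c U H y ρ n i = some (c (U i)) := by
  unfold D1_f
  rw [if_pos ⟨h1, h2, h3⟩]

/-- The interface event at position `i`. -/
def D1_A (U : ℤ → V) (H : Set V) (y : V) (ρ n : ℕ) (i : ℤ) : Set (V → Bool) :=
  Ev fun c => ∃ k, D1_f c U H y ρ n i = some k ∧ D1_f c U H y ρ n (i + 1) = some (!k)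

/-- A finite box. -/
noncomputable def D1_bx (y : V) (ρ : ℕ) : Finset V :=
  (Finset.Icc (y.1 - ρ) (y.1 + ρ)) ×ˢ (Finset.Icc (y.2 - ρ) (y.2 + ρ))

theorem D1_mem_bx {y : V} {ρ : ℕ} {v : V} (h : v ∈ box y ρ) : v ∈ D1_bx y ρ := by
  unfold D1_bx
  have h' : sd y v ≤ ρ := h
  unfold sd at h'
  rw [Finset.mem_product, Finset.mem_Icc, Finset.mem_Icc]
  omega

theorem D1_col_congr {b b' : V → Bool} {v : V} (h : b v = b' v) : col b v = col b' v := by
  unfold col
  rw [h]

theorem D1_f_congr {c c' : V → Bool} {U : ℤ → V} {H : Set V} {y : V} {ρ n : ℕ} {i : ℤ}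
    (hH : ∀ v ∈ H, c v = c' v) (hU : c (U i) = c' (U i)) :
    D1_f c U H y ρ n i = D1_f c' U H y ρ n i := by
  have e : ∀ k, {w | w ∈ H ∧ c w = k} = {w | w ∈ H ∧ c' w = k} := by
    intro k
    ext w
    constructor
    · rintro ⟨h1, h2⟩
      exact ⟨h1, by rw [← hH w h1]; exact h2⟩
    · rintro ⟨h1, h2⟩
      exact ⟨h1, by rw [hH w h1]; exact h2⟩
  unfold D1_f Conn
  rw [hU, e]

theorem D1_A_meas (U : ℤ → V) (H : Set V) (y : V) (ρ n : ℕ) (i : ℤ) (hH : H ⊆ box y ρ) :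
    MeasurableSet (D1_A U H y ρ n i) := by
  classical
  refine D1_meas (Λ := D1_bx y ρ ∪ {U i, U (i + 1)}) ?_
  intro b b' hbb
  have hcol : ∀ v ∈ D1_bx y ρ ∪ {U i, U (i + 1)}, col b v = col b' v := fun v hv =>
    D1_col_congr (hbb v (by exact_mod_cast hv))
  have hHc : ∀ v ∈ H, col b v = col b' v := fun v hv =>
    hcol v (Finset.mem_union_left _ (D1_mem_bx (hH hv)))
  have e1 : D1_f (col b) U H y ρ n i = D1_f (col b') U H y ρ n i :=
    D1_f_congr hHc (hcol _ (by simp))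
  have e2 : D1_f (col b) U H y ρ n (i + 1) = D1_f (col b') U H y ρ n (i + 1) :=
    D1_f_congr hHc (hcol _ (by simp))
  show (∃ k, D1_f (col b) U H y ρ n i = some k ∧ D1_f (col b) U H y ρ n (i + 1) = some (!k)) ↔
    ∃ k, D1_f (col b') U H y ρ n i = some k ∧ D1_f (col b') U H y ρ n (i + 1) = some (!k)
  rw [e1, e2]

/-- Both cases of the planar input. -/
theorem D1_T (hTO : TO_stmt) (hTI : TI_stmt) (s : Bool) (c : V → Bool) (k : Bool) (x : V) (n : ℕ)
    (y : V) (ρ : ℕ) (hx : Even (x.1 + x.2)) (hy : y ∈ bd x n) (h1 : 1 ≤ ρ) (h2 : ρ ≤ n)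
    (u₁ u₂ u₃ z : V) (ha : onArc x n u₁ u₃ u₂) (hw : ∀ w, onArc x n u₁ u₃ w → sd y w < ρ)
    (hc1 : c u₁ = k) (hc2 : c u₂ = !k) (hc3 : c u₃ = k) (hz : sd y z = ρ)
    (hcon : Conn c (!k) (HS s x n ∩ box y ρ) u₂ z) : ¬ Conn c k (HS s x n ∩ box y ρ) u₁ u₃ := by
  cases s with
  | true => exact hTO c k x n y ρ hx hy h1 h2 u₁ u₂ u₃ z ha hw hc1 hc2 hc3 hz hcon
  | false => exact hTI c k x n y ρ hx hy h1 h2 u₁ u₂ u₃ z ha hw hc1 hc2 hc3 hz hcon

theorem D1_window (hTO : TO_stmt) (hTI : TI_stmt) (hSQ : SQ_stmt) (hMA : MA_stmt)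
    (hCG2 : CG2_stmt) (c₀ : ℝ) (h0 : 0 < c₀) (ℓ : ℕ)
    (hC : ∀ k' g, c₀ ≤ Pr (Ev fun c => ∃ S, Loop c k' g ℓ S)) (hℓ : 1 ≤ ℓ) (s : Bool) (x : V)
    (n ρ : ℕ) (hx : Even (x.1 + x.2)) (hρ : 3 * ℓ ≤ ρ) (hρn : ρ ≤ n) (U : ℤ → V)
    (hU : ∀ p : ℤ, 0 < p → p ≤ 8 * n → U p ∈ bd x n ∧ pos x n (U p) = p) (p : ℤ) (hp0 : 0 ≤ p)
    (hp : p + 1 ≤ 8 * n) :
    ∑ i ∈ Finset.Ioc p (p + ℓ), Pr (D1_A U (HS s x n ∩ box (U (p + 1)) ρ) (U (p + 1)) ρ n i) ≤
      4 / c₀ := by
  classical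
  set y := U (p + 1) with hy
  set H := HS s x n ∩ box y ρ with hH
  have hn : 1 ≤ n := by omega
  have hHb : H ⊆ box y ρ := Set.inter_subset_right
  obtain ⟨hyb, hyp⟩ := hU (p + 1) (by omega) hp
  set J : Set V := {u | u ∈ bd x n ∧ p < pos x n u ∧ pos x n u ≤ p + ℓ + 1} with hJ
  have hJd : ∀ u ∈ J, sd y u ≤ ℓ := by
    rintro u ⟨h1, h2, h3⟩
    have h4 := (hCG2 x n hn y hyb u h1).1
    rw [hyp] at h4
    have h5 : |p + 1 - pos x n u| ≤ ℓ := by
      rw [abs_le]
      omega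
    omega
  have hJb : J ⊆ box y ℓ := fun u hu => hJd u hu
  have hc1 : c₀ ≤ 1 := le_trans (hC true (0, 0)) (D1_Pr_le_one _)
  have hmulti : ∀ (k : Bool) (t : ℕ),
      Pr (Ev fun c => Multi c k H J y ρ t) ≤ (1 - c₀) ^ t := fun k t =>
    hMA c₀ ℓ ρ t y k H J h0.le hC hJb hρ hℓ hHb
  have hcount := D1_count (Finset.Ioc p (p + ℓ)) (fun i => D1_A U H y ρ n i)
    (fun i _ => D1_A_meas U H y ρ n i hHb) (fun t => 2 * (1 - c₀) ^ (t / 2 + 1)) ?_
  · refine le_trans hcount ?_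
    rw [← Finset.mul_sum]
    have := D1_geom (lam := 1 - c₀) (by linarith) (by linarith) (Finset.Ioc p (p + ℓ)).card
    have e : 4 / c₀ = 2 * (2 / (1 - (1 - c₀))) := by ring
    rw [e]
    linarith
  · intro t ht1 ht2
    have hsub : {b : V → Bool | ∃ I : Finset ℤ, I ⊆ Finset.Ioc p (p + ℓ) ∧ t ≤ I.card ∧
        ∀ i ∈ I, b ∈ D1_A U H y ρ n i} ⊆
        (Ev fun c => Multi c true H J y ρ (t / 2 + 1)) ∪
          (Ev fun c => Multi c false H J y ρ (t / 2 + 1)) := by
      rintro b ⟨I, hI1, hI2, hI3⟩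
      obtain ⟨u, k, hu1, hu2⟩ := hSQ (D1_f (col b) U H y ρ n) p (ℓ + 1) t I (by
        intro i hi
        have hi' := hI1 hi
        rw [Finset.mem_Ioc] at hi'
        refine ⟨hi'.1, by push_cast; omega, hI3 i hi⟩) hI2 ht1
      have hmono : ∀ j, j ≤ t → ∀ i, i < j → u i < u j := by
        intro j
        induction j with
        | zero => intro _ i hi; omega
        | succ j ih =>
          intro hj i hi
          have h1 := hu2 j (by omega)
          rcases Nat.lt_succ_iff_lt_or_eq.1 hi with h | h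
          · exact lt_trans (ih (by omega) i h) h1
          · rw [h]; exact h1
      have hprop : ∀ i ≤ t, p < u i ∧ u i ≤ p + ℓ + 1 ∧ 0 < u i ∧ u i ≤ 8 * n ∧
          col b (U (u i)) = xor k (decide (i % 2 = 1)) ∧
          ∃ z, sd y z = ρ ∧ Conn (col b) (xor k (decide (i % 2 = 1))) H (U (u i)) z := by
        intro i hi
        obtain ⟨h1, h2, h3⟩ := hu1 i hi
        obtain ⟨h4, h5, h6, h7⟩ := D1_f_some h3
        push_cast at h2
        exact ⟨h1, by linarith, h4, h5, h6, h7⟩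
      have hM : Multi (col b) k H J y ρ (t / 2 + 1) := by
        refine ⟨fun m => U (u (2 * m)), ?_, ?_⟩
        · intro m hm
          have hm2 : 2 * m ≤ t := by omega
          obtain ⟨h1, h2, h3, h4, h5, h6⟩ := hprop (2 * m) hm2
          have e : decide (2 * m % 2 = 1) = false := by
            rw [decide_eq_false_iff_not]; omega
          rw [e, Bool.xor_false] at h6
          obtain ⟨h7, h8⟩ := hU (u (2 * m)) h3 h4
          exact ⟨⟨h7, by rw [h8]; exact h1, by rw [h8]; exact h2⟩, h6⟩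
        · have hlt : ∀ m m', m < m' → m' < t / 2 + 1 →
              ¬ Conn (col b) k H (U (u (2 * m))) (U (u (2 * m'))) := by
            intro m m' hmm hm'
            have hm2 : 2 * m' ≤ t := by omega
            obtain ⟨a1, a2, a3, a4, a5, a6⟩ := hprop (2 * m) (by omega)
            obtain ⟨b1, b2, b3, b4, b5, z, hz, b6⟩ := hprop (2 * m + 1) (by omega)
            obtain ⟨d1, d2, d3, d4, d5, d6⟩ := hprop (2 * m') hm2
            have e : ∀ q, decide (2 * q % 2 = 1) = false := by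
              intro q
              rw [decide_eq_false_iff_not]; omega
            have e' : decide ((2 * m + 1) % 2 = 1) = true := by
              rw [decide_eq_true_iff]; omega
            rw [e, Bool.xor_false] at a5 d5
            rw [e', Bool.xor_true] at b5 b6
            obtain ⟨a7, a8⟩ := hU _ a3 a4
            obtain ⟨b7, b8⟩ := hU _ b3 b4
            obtain ⟨d7, d8⟩ := hU _ d3 d4
            have o1 : u (2 * m) < u (2 * m + 1) := hmono _ (by omega) _ (by omega)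
            have o2 : u (2 * m + 1) < u (2 * m') := hmono _ (by omega) _ (by omega)
            refine D1_T hTO hTI s (col b) k x n y ρ hx hyb (by omega) hρn _ (U (u (2 * m + 1))) _ z
              ?_ ?_ a5 b5 d5 hz b6
            · refine ⟨a7, d7, b7, ?_⟩
              rw [a8, b8, d8, if_pos (by omega)]
              omega
            · rintro w ⟨_, _, w3, w4⟩
              rw [a8, d8, if_pos (by omega)] at w4
              have := hJd w ⟨w3, by omega, by omega⟩
              omega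
          intro m hm m' hm' hne hcon
          rcases Nat.lt_or_gt_of_ne hne with h | h
          · exact hlt m m' h hm' hcon
          · exact hlt m' m h hm (D1_con_symm hcon)
      cases k with
      | true => exact Or.inl hM
      | false => exact Or.inr hM
    refine le_trans (D1_Pr_mono hsub) (le_trans (D1_Pr_union _ _) ?_)
    have h1 := hmulti true (t / 2 + 1)
    have h2 := hmulti false (t / 2 + 1)
    linarith

/-! ## All windows -/

theorem D1_bdF_mem {x : V} {n : ℕ} {v : V} : v ∈ bdF x n ↔ v ∈ bd x n := by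
  unfold bdF
  rw [Finset.mem_filter]
  constructor
  · rintro ⟨_, h⟩
    exact h
  · intro h
    have h' : sd x v = n := h
    exact ⟨D1_mem_bx (show v ∈ box x n from h'.le), h'⟩

open Classical in
theorem D1_total (hCG1 : CG1_stmt) (x : V) (n : ℕ) (hn : 1 ≤ n) (U : ℤ → V)
    (hU : ∀ p : ℤ, 0 < p → p ≤ 8 * n → U p ∈ bd x n ∧ pos x n (U p) = p)
    (E : V → V → Set (V → Bool)) (B : ℤ → ℝ) (hB0 : ∀ i, 0 ≤ B i)
    (hB1 : ∀ i : ℤ, 0 < i → i + 1 ≤ 8 * n → Pr (E (U (i + 1)) (U i)) ≤ B i)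
    (hB2 : ∀ i : ℤ, 0 < i → i + 1 ≤ 8 * n → Pr (E (U i) (U (i + 1))) ≤ B i) :
    ∑ b ∈ bdF x n, ∑ a ∈ (bdF x n).filter (fun a => nb x n a b), Pr (E a b) ≤
      2 * ∑ i ∈ Finset.Icc (1 : ℤ) (8 * n), B i + 2 := by
  obtain ⟨c1, c2, c3⟩ := hCG1 x n hn
  set S : Finset ℤ := Finset.Icc (1 : ℤ) (8 * n) with hS
  have himg : bdF x n = S.image U := by
    ext v
    rw [D1_bdF_mem, Finset.mem_image]
    constructor
    · intro hv
      obtain ⟨h1, h2⟩ := c1 v hv
      obtain ⟨h3, h4⟩ := hU (pos x n v) h1 h2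
      exact ⟨pos x n v, by rw [hS, Finset.mem_Icc]; omega, c2 _ h3 _ hv h4⟩
    · rintro ⟨i, hi, rfl⟩
      rw [hS, Finset.mem_Icc] at hi
      exact (hU i (by omega) hi.2).1
  have hinj : Set.InjOn U (S : Set ℤ) := by
    intro i hi j hj hij
    rw [Finset.mem_coe, hS, Finset.mem_Icc] at hi hj
    rw [← (hU i (by omega) hi.2).2, ← (hU j (by omega) hj.2).2, hij]
  have hsum : ∀ F : V → ℝ, ∑ b ∈ bdF x n, F b = ∑ i ∈ S, F (U i) := by
    intro F
    rw [himg, Finset.sum_image hinj]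
  have hL : ∑ b ∈ bdF x n, ∑ a ∈ (bdF x n).filter (fun a => nb x n a b), Pr (E a b) =
      ∑ i ∈ S, ∑ i' ∈ S, if nb x n (U i') (U i) then Pr (E (U i') (U i)) else 0 := by
    rw [hsum]
    refine Finset.sum_congr rfl fun i _ => ?_
    rw [Finset.sum_filter, hsum]
  rw [hL]
  have hterm : ∀ i ∈ S, ∀ i' ∈ S,
      (if nb x n (U i') (U i) then Pr (E (U i') (U i)) else 0) ≤
        (if i = i' + 1 then B i' else 0) + (if i' = i + 1 then B i else 0) +
          ((if i = 1 then (if i' = 8 * n then (1 : ℝ) else 0) else 0) +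
            (if i = 8 * n then (if i' = 1 then (1 : ℝ) else 0) else 0)) := by
    intro i hi i' hi'
    rw [hS, Finset.mem_Icc] at hi hi'
    have n1 : 0 ≤ (if i = i' + 1 then B i' else 0) := by
      split_ifs
      · exact hB0 _
      · exact le_rfl
    have n2 : 0 ≤ (if i' = i + 1 then B i else 0) := by
      split_ifs
      · exact hB0 _
      · exact le_rfl
    have n3 : (0 : ℝ) ≤ (if i = 1 then (if i' = 8 * n then (1 : ℝ) else 0) else 0) := by
      split_ifs <;> norm_num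
    have n4 : (0 : ℝ) ≤ (if i = 8 * n then (if i' = 1 then (1 : ℝ) else 0) else 0) := by
      split_ifs <;> norm_num
    obtain ⟨a1, a2⟩ := hU i (by omega) hi.2
    obtain ⟨b1, b2⟩ := hU i' (by omega) hi'.2
    by_cases hnb : nb x n (U i') (U i)
    swap
    · rw [if_neg hnb]
      linarith
    rw [if_pos hnb]
    have hle1 := D1_Pr_le_one (E (U i') (U i))
    rcases hnb with ⟨_, _, h | ⟨h, h'⟩⟩ | ⟨_, _, h | ⟨h, h'⟩⟩
    · rw [a2, b2] at h
      rw [if_pos h] at n1 ⊢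
      have := hB2 i' (by omega) (by omega)
      rw [← h] at this
      linarith
    · rw [b2] at h
      rw [a2] at h'
      rw [if_pos h', if_pos h] at n3 ⊢
      linarith
    · rw [a2, b2] at h
      rw [if_pos h] at n2 ⊢
      have := hB1 i (by omega) (by omega)
      rw [← h] at this
      linarith
    · rw [a2] at h
      rw [b2] at h'
      rw [if_pos h, if_pos h'] at n4 ⊢
      linarith
  refine le_trans (Finset.sum_le_sum fun i hi => Finset.sum_le_sum fun i' hi' =>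
    hterm i hi i' hi') ?_
  simp only [Finset.sum_add_distrib]
  have s1 : ∑ i ∈ S, ∑ i' ∈ S, (if i = i' + 1 then B i' else 0) ≤ ∑ i ∈ S, B i := by
    rw [Finset.sum_comm]
    refine Finset.sum_le_sum fun i' _ => ?_
    rw [Finset.sum_ite_eq' S (i' + 1) fun _ => B i']
    split_ifs
    · exact le_rfl
    · exact hB0 _
  have s2 : ∑ i ∈ S, ∑ i' ∈ S, (if i' = i + 1 then B i else 0) ≤ ∑ i ∈ S, B i := by
    refine Finset.sum_le_sum fun i _ => ?_
    rw [Finset.sum_ite_eq' S (i + 1) fun _ => B i]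
    split_ifs
    · exact le_rfl
    · exact hB0 _
  have s3 : ∑ i ∈ S, ∑ i' ∈ S, (if i = 1 then (if i' = 8 * (n : ℤ) then (1 : ℝ) else 0) else 0) ≤
      1 := by
    have : ∀ i ∈ S, ∑ i' ∈ S, (if i = 1 then (if i' = 8 * (n : ℤ) then (1 : ℝ) else 0) else 0) ≤
        (if i = 1 then (1 : ℝ) else 0) := by
      intro i _
      by_cases h : i = 1
      · simp only [h, if_true]
        rw [Finset.sum_ite_eq' S (8 * (n : ℤ)) fun _ => (1 : ℝ)]
        split_ifs <;> norm_num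
      · simp [h]
    refine le_trans (Finset.sum_le_sum this) ?_
    rw [Finset.sum_ite_eq' S (1 : ℤ) fun _ => (1 : ℝ)]
    split_ifs <;> norm_num
  have s4 : ∑ i ∈ S, ∑ i' ∈ S, (if i = 8 * (n : ℤ) then (if i' = 1 then (1 : ℝ) else 0) else 0) ≤
      1 := by
    have : ∀ i ∈ S, ∑ i' ∈ S, (if i = 8 * (n : ℤ) then (if i' = 1 then (1 : ℝ) else 0) else 0) ≤
        (if i = 8 * (n : ℤ) then (1 : ℝ) else 0) := by
      intro i _
      by_cases h : i = 8 * (n : ℤ)
      · simp only [h, if_true]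
        rw [Finset.sum_ite_eq' S (1 : ℤ) fun _ => (1 : ℝ)]
        split_ifs <;> norm_num
      · simp [h]
    refine le_trans (Finset.sum_le_sum this) ?_
    rw [Finset.sum_ite_eq' S (8 * (n : ℤ)) fun _ => (1 : ℝ)]
    split_ifs <;> norm_num
  linarith

/-- The two ends of the edge cross the window. -/
theorem D1_cross {s : Bool} {c : V → Bool} {x y a v : V} {n R ℓ ρ : ℕ} (ha : sd y a ≤ ℓ)
    (hv : sd y v ≤ ℓ) (h1 : ℓ ≤ ρ) (h2 : ρ + ℓ ≤ R)
    (h : TwoEnd c (HS s x n ∩ box v R) R a v) :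
    c a ≠ c v ∧ (∃ z, sd y z = ρ ∧ Conn c (c a) (HS s x n ∩ box y ρ) a z) ∧
      ∃ z, sd y z = ρ ∧ Conn c (c v) (HS s x n ∩ box y ρ) v z := by
  obtain ⟨hne, ⟨z, hz, hcz⟩, ⟨z', hz', hcz'⟩⟩ := h
  have key : ∀ (k : Bool) (u w : V), sd y u ≤ ℓ → sd v w = R →
      Conn c k (HS s x n ∩ box v R) u w →
        ∃ z, sd y z = ρ ∧ Conn c k (HS s x n ∩ box y ρ) u z := by
    intro k u w hu hw hcon
    have t1 := D1_sd_tri v y w
    rw [D1_sd_comm v y] at t1
    obtain ⟨z, hz, hc⟩ := D1_exit (y := y) (ρ := ρ) hcon (by omega) (by omega)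
    refine ⟨z, hz, D1_con_mono ?_ hc⟩
    rintro w' ⟨⟨⟨h3, _⟩, h4⟩, h5⟩
    exact ⟨⟨h3, h5⟩, h4⟩
  exact ⟨hne, key _ _ _ ha hz hcz, key _ _ _ hv hz' hcz'⟩

open Classical in
theorem D1 (hC1 : C1_stmt) (hTO : TO_stmt) (hTI : TI_stmt) (hSQ : SQ_stmt) (hMA : MA_stmt)
    (hCG1 : CG1_stmt) (hCG2 : CG2_stmt) : D1_stmt := by
  obtain ⟨c₀, hc₀, ℓ₀, hℓ₀, hC⟩ := hC1
  refine ⟨144 * ℓ₀ + 1032 / c₀ + 2, by positivity, ?_⟩
  intro s x n R hx hR hRn
  have hn : 1 ≤ n := le_trans hR hRn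
  have hRpos : (0 : ℝ) < R := by exact_mod_cast hR
  have hnR : (1 : ℝ) ≤ (n : ℝ) / R := by
    rw [le_div_iff₀ hRpos]
    have : (R : ℝ) ≤ n := by exact_mod_cast hRn
    linarith
  have hcex : ∀ p : ℤ, ∃ u : V, 0 < p → p ≤ 8 * n → u ∈ bd x n ∧ pos x n u = p := by
    intro p
    by_cases h : 0 < p ∧ p ≤ 8 * n
    · obtain ⟨u, hu1, hu2⟩ := (hCG1 x n hn).2.2 p h.1 h.2
      exact ⟨u, fun _ _ => ⟨hu1, hu2⟩⟩
    · exact ⟨(0, 0), fun h1 h2 => absurd ⟨h1, h2⟩ h⟩
  choose U hU using hcex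
  have hcard : (Finset.Icc (1 : ℤ) (8 * n)).card = 8 * n := by
    rw [Int.card_Icc]
    omega
  by_cases hsmall : R < 8 * ℓ₀
  · have h := D1_total hCG1 x n hn U hU
      (fun a b => Ev fun c => TwoEnd c (HS s x n ∩ box b R) R a b) (fun _ => 1)
      (fun _ => zero_le_one) (fun _ _ _ => D1_Pr_le_one _) (fun _ _ _ => D1_Pr_le_one _)
    refine le_trans h ?_
    rw [Finset.sum_const, hcard]
    have h1 : (R : ℝ) ≤ 8 * ℓ₀ := by exact_mod_cast hsmall.le
    have h2 : (18 : ℝ) * n ≤ 144 * ℓ₀ * ((n : ℝ) / R) := by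
      rw [mul_div_assoc', le_div_iff₀ hRpos]
      have : (0 : ℝ) ≤ n := Nat.cast_nonneg n
      nlinarith
    have h3 : (1 : ℝ) ≤ n := by exact_mod_cast hn
    have h4 : 0 ≤ (1032 / c₀ + 2) * ((n : ℝ) / R) := by positivity
    simp only [nsmul_eq_mul]
    push_cast
    nlinarith
  · have hℓ1 : ℓ₀ ≤ R / 8 := by omega
    set ℓ := R / 8 with hℓ
    set ρ := R / 2 with hρ
    have hℓpos : 1 ≤ ℓ := by omega
    set K : ℕ := (8 * n - 1) / ℓ + 1 with hK
    set y : ℕ → V := fun j => U ((j : ℤ) * ℓ + 1) with hy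
    set A : ℕ → ℤ → ℝ := fun j i =>
      Pr (D1_A U (HS s x n ∩ box (y j) ρ) (y j) ρ n i) with hA
    set B : ℤ → ℝ := fun i => ∑ j ∈ Finset.range K,
      if (j : ℤ) * ℓ < i ∧ i ≤ (j : ℤ) * ℓ + ℓ then A j i else 0 with hB
    have hA0 : ∀ j i, 0 ≤ A j i := fun j i => D1_Pr_nonneg _
    have hB0 : ∀ i, 0 ≤ B i := by
      intro i
      refine Finset.sum_nonneg fun j _ => ?_
      split_ifs
      · exact hA0 _ _
      · exact le_rfl
    have hjn : ∀ j, j < K → (j : ℤ) * ℓ + 1 ≤ 8 * n := by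
      intro j hj
      have h1 : j ≤ (8 * n - 1) / ℓ := by omega
      have h2 : j * ℓ ≤ 8 * n - 1 := (Nat.le_div_iff_mul_le hℓpos).1 h1
      have h3 : ((j * ℓ : ℕ) : ℤ) ≤ ((8 * n - 1 : ℕ) : ℤ) := by exact_mod_cast h2
      push_cast at h3
      omega
    have hBev : ∀ i : ℤ, 0 < i → i + 1 ≤ 8 * n → ∀ F : Set (V → Bool),
        (∀ (yy : V), yy ∈ bd x n → |pos x n yy - i| ≤ ℓ → |pos x n yy - (i + 1)| ≤ ℓ →
          F ⊆ D1_A U (HS s x n ∩ box yy ρ) yy ρ n i) → Pr F ≤ B i := by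
      intro i hi0 hi1 F hF
      obtain ⟨j, hj⟩ : ∃ j : ℕ, (j : ℤ) = (i - 1) / ℓ :=
        ⟨((i - 1) / ℓ).toNat, Int.toNat_of_nonneg (Int.ediv_nonneg (by omega) (by omega))⟩
      have hℓz : (0 : ℤ) < ℓ := by exact_mod_cast hℓpos
      have e1 : (j : ℤ) * ℓ ≤ i - 1 := by
        rw [hj]; exact Int.ediv_mul_le _ hℓz.ne'
      have e2 : i - 1 < (j : ℤ) * ℓ + ℓ := by
        have := Int.lt_ediv_add_one_mul_self (i - 1) hℓz
        rw [← hj] at this
        linarith
      have hjK : j < K := by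
        have h1 : j * ℓ ≤ 8 * n - 1 := by
          have : ((j * ℓ : ℕ) : ℤ) ≤ i - 1 := by push_cast; exact e1
          omega
        have h2 : j ≤ (8 * n - 1) / ℓ := (Nat.le_div_iff_mul_le hℓpos).2 h1
        omega
      obtain ⟨y1, y2⟩ := hU ((j : ℤ) * ℓ + 1) (by positivity) (hjn j hjK)
      have h3 : Pr F ≤ A j i := by
        refine D1_Pr_mono (hF (y j) y1 ?_ ?_)
        · show |pos x n (U ((j : ℤ) * ℓ + 1)) - i| ≤ ℓ
          rw [y2, abs_le]
          constructor <;> linarith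
        · show |pos x n (U ((j : ℤ) * ℓ + 1)) - (i + 1)| ≤ ℓ
          rw [y2, abs_le]
          constructor <;> linarith
      refine le_trans h3 ?_
      have h4 := Finset.single_le_sum (f := fun j : ℕ =>
        if (j : ℤ) * ℓ < i ∧ i ≤ (j : ℤ) * ℓ + ℓ then A j i else 0) (s := Finset.range K)
        (fun j _ => by
          split_ifs
          · exact hA0 _ _
          · exact le_rfl) (Finset.mem_range.2 hjK)
      have h5 : (j : ℤ) * ℓ < i ∧ i ≤ (j : ℤ) * ℓ + ℓ := ⟨by linarith, by linarith⟩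
      simp only [h5, and_self, if_true] at h4
      exact h4
    have hdist : ∀ (yy : V) (i : ℤ), yy ∈ bd x n → 0 < i → i ≤ 8 * n → |pos x n yy - i| ≤ ℓ →
        sd yy (U i) ≤ ℓ := by
      intro yy i hyy h1 h2 h3
      obtain ⟨h4, h5⟩ := hU i h1 h2
      have h6 := (hCG2 x n hn yy hyy (U i) h4).1
      rw [h5] at h6
      omega
    have hboth : ∀ (i : ℤ) (c : V → Bool) (yy : V), 0 < i → i + 1 ≤ 8 * n →
        c (U i) ≠ c (U (i + 1)) →
        (∃ z, sd yy z = ρ ∧ Conn c (c (U i)) (HS s x n ∩ box yy ρ) (U i) z) →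
        (∃ z, sd yy z = ρ ∧ Conn c (c (U (i + 1))) (HS s x n ∩ box yy ρ) (U (i + 1)) z) →
        ∃ k, D1_f c U (HS s x n ∩ box yy ρ) yy ρ n i = some k ∧
          D1_f c U (HS s x n ∩ box yy ρ) yy ρ n (i + 1) = some (!k) := by
      intro i c yy hi0 hi1 hne h1 h2
      refine ⟨c (U i), D1_f_of hi0 (by omega) h1, ?_⟩
      rw [D1_f_of (by omega) hi1 h2]
      congr 1
      revert hne
      cases c (U i) <;> cases c (U (i + 1)) <;> simp
    have hB1 : ∀ i : ℤ, 0 < i → i + 1 ≤ 8 * n →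
        Pr (Ev fun c => TwoEnd c (HS s x n ∩ box (U i) R) R (U (i + 1)) (U i)) ≤ B i := by
      intro i hi0 hi1
      refine hBev i hi0 hi1 _ ?_
      intro yy hyy hd1 hd2 b hb
      obtain ⟨h1, h2, h3⟩ := D1_cross (hdist yy (i + 1) hyy (by omega) hi1 hd2)
        (hdist yy i hyy hi0 (by omega) hd1) (show ℓ ≤ ρ by omega) (show ρ + ℓ ≤ R by omega) hb
      exact hboth i (col b) yy hi0 hi1 (Ne.symm h1) h3 h2
    have hB2 : ∀ i : ℤ, 0 < i → i + 1 ≤ 8 * n →
        Pr (Ev fun c => TwoEnd c (HS s x n ∩ box (U (i + 1)) R) R (U i) (U (i + 1))) ≤ B i := by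
      intro i hi0 hi1
      refine hBev i hi0 hi1 _ ?_
      intro yy hyy hd1 hd2 b hb
      obtain ⟨h1, h2, h3⟩ := D1_cross (hdist yy i hyy hi0 (by omega) hd1)
        (hdist yy (i + 1) hyy (by omega) hi1 hd2) (show ℓ ≤ ρ by omega)
        (show ρ + ℓ ≤ R by omega) hb
      exact hboth i (col b) yy hi0 hi1 h1 h2 h3
    have h := D1_total hCG1 x n hn U hU
      (fun a b => Ev fun c => TwoEnd c (HS s x n ∩ box b R) R a b) B hB0 hB1 hB2
    refine le_trans h ?_
    have hBsum : ∑ i ∈ Finset.Icc (1 : ℤ) (8 * n), B i ≤ K * (4 / c₀) := by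
      rw [hB, Finset.sum_comm]
      have : ∀ j ∈ Finset.range K, ∑ i ∈ Finset.Icc (1 : ℤ) (8 * n),
          (if (j : ℤ) * ℓ < i ∧ i ≤ (j : ℤ) * ℓ + ℓ then A j i else 0) ≤ 4 / c₀ := by
        intro j hj
        rw [Finset.mem_range] at hj
        rw [← Finset.sum_filter]
        refine le_trans (Finset.sum_le_sum_of_subset_of_nonneg
          (t := Finset.Ioc ((j : ℤ) * ℓ) ((j : ℤ) * ℓ + ℓ)) ?_ (fun i _ _ => hA0 j i)) ?_
        · intro i hi
          rw [Finset.mem_filter] at hi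
          rw [Finset.mem_Ioc]
          exact hi.2
        · exact D1_window hTO hTI hSQ hMA hCG2 c₀ hc₀ ℓ (fun k' g => hC k' g ℓ hℓ1) hℓpos s x n ρ hx
            (by omega) (by omega) U hU ((j : ℤ) * ℓ) (by positivity) (hjn j hj)
      refine le_trans (Finset.sum_le_sum this) ?_
      rw [Finset.sum_const, Finset.card_range, nsmul_eq_mul]
    have hKle : (K : ℝ) ≤ 129 * ((n : ℝ) / R) := by
      have h1 : (K : ℝ) ≤ 8 * n / ℓ + 1 := by
        rw [hK]
        push_cast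
        have h2 : (((8 * n - 1) / ℓ : ℕ) : ℝ) ≤ ((8 * n - 1 : ℕ) : ℝ) / ℓ := Nat.cast_div_le
        have h3 : ((8 * n - 1 : ℕ) : ℝ) ≤ 8 * n := by
          have : 8 * n - 1 ≤ 8 * n := Nat.sub_le _ _
          exact_mod_cast this
        have hℓr : (0 : ℝ) < ℓ := by exact_mod_cast hℓpos
        have h4 : ((8 * n - 1 : ℕ) : ℝ) / ℓ ≤ 8 * n / ℓ := div_le_div_of_nonneg_right h3 hℓr.le
        linarith
      have h5 : (8 : ℝ) * n / ℓ ≤ 128 * ((n : ℝ) / R) := by
        have hℓr : (0 : ℝ) < ℓ := by exact_mod_cast hℓpos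
        rw [mul_div_assoc', div_le_div_iff₀ hℓr hRpos]
        have h6 : (R : ℝ) ≤ 16 * ℓ := by
          have : R ≤ 16 * ℓ := by omega
          exact_mod_cast this
        have : (0 : ℝ) ≤ n := Nat.cast_nonneg n
        nlinarith
      linarith
    have hfin : 2 * ((K : ℝ) * (4 / c₀)) ≤ 1032 / c₀ * ((n : ℝ) / R) := by
      have h1 : (0 : ℝ) ≤ 4 / c₀ := by positivity
      have h2 : 2 * ((K : ℝ) * (4 / c₀)) ≤ 2 * ((129 * ((n : ℝ) / R)) * (4 / c₀)) := by
        have := mul_le_mul_of_nonneg_right hKle h1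
        linarith
      refine le_trans h2 (le_of_eq ?_)
      ring
    have hlast : 0 ≤ (144 * (ℓ₀ : ℝ)) * ((n : ℝ) / R) := by positivity
    nlinarith

end DP
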