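import Pool.Agent.helper95.DP.SpecH

/-!
# Module HDW of project dp: dictionary for white clusters
-/

namespace DP

open MeasureTheory

/-- The site of the dual vertex `a + (1/2, 1/2)`. -/
def HDW_s (a : ℤ × ℤ) : V := (2 * a.1 + 1, 2 * a.2 + 1)

theorem HDW_near (v : V) : sd (HDW_s (v.1 / 2, v.2 / 2)) v ≤ 1 := by
  unfold sd HDW_s
  simp only
  omega

theorem HDW_col_dual {b : V → Bool} {v : V} (h : col b v = false) : ¬ (v.1 % 2 = 0 ∧ v.2 % 2 = 0) := by
  intro h'
  unfold col at h
  rw [if_pos h'] at h
  exact absurd h (by simp)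

theorem HDW_col_mixed {b : V → Bool} {v : V} (h : col b v = false) (hv : ¬ Even (v.1 + v.2)) :
    b v = false := by
  rw [Int.even_iff] at hv
  unfold col at h
  rw [if_neg (by omega), if_neg (by omega)] at h
  exact h

/-- Two dual vertices next to a white edge site are equal or neighbours. -/
theorem HDW_pair (hSI : HSI_stmt) {ω : DynPerc.Edge → Bool} {b : V → Bool}
    (hb : ∀ e, b (site e) = ω e) {m : V} (hm : col b m = false) (hmix : ¬ Even (m.1 + m.2))
    {a a' : ℤ × ℤ} (ha : sd (HDW_s a) m ≤ 1) (ha' : sd (HDW_s a') m ≤ 1) :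
    a = a' ∨ (DynPerc.dualGraph ω).Adj a a' := by
  by_cases haa : a = a'
  · exact Or.inl haa
  right
  have hbm := HDW_col_mixed hm hmix
  obtain ⟨e, he⟩ := (hSI.2 m).2 hmix
  have hne : ¬ (a.1 = a'.1 ∧ a.2 = a'.2) := fun h => haa (Prod.ext h.1 h.2)
  unfold sd HDW_s at ha ha'
  simp only at ha ha'
  rw [Int.even_iff] at hmix
  have hadj : |a.1 - a'.1| + |a.2 - a'.2| = 1 := by
    rw [Int.abs_eq_natAbs, Int.abs_eq_natAbs]
    omega
  have hmid : m = a + a' + (1, 1) := by
    ext
    · simp only [Prod.fst_add]
      omega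
    · simp only [Prod.snd_add]
      omega
  obtain ⟨s, hs⟩ := e
  induction s using Sym2.ind with
  | _ u v =>
    refine ⟨hadj, u, v, hs, ?_, ?_⟩
    · rw [← hmid, ← he]
      rfl
    · rw [← hb, he]
      exact hbm

theorem HDW_fin (a : ℤ × ℤ) : {v : V | sd (HDW_s a) v ≤ 1}.Finite := by
  refine Set.Finite.subset (((Finset.Icc (2 * a.1) (2 * a.1 + 2)) ×ˢ
    (Finset.Icc (2 * a.2) (2 * a.2 + 2)) : Finset V).finite_toSet) ?_
  intro v hv
  have h : sd (HDW_s a) v ≤ 1 := hv
  unfold sd HDW_s at h
  simp only at h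
  simp only [Finset.coe_product, Finset.coe_Icc, Set.mem_prod, Set.mem_Icc]
  omega

theorem HDW (hSI : HSI_stmt) : HDW_stmt := by
  rintro ω b hb ⟨u, hu⟩
  set G := DynPerc.dualGraph ω with hG
  set a₀ : ℤ × ℤ := (u.1 / 2, u.2 / 2) with ha₀
  have hreach : ∀ v, Conn (col b) false Set.univ u v →
      ∀ a, sd (HDW_s a) v ≤ 1 → G.Reachable a₀ a := by
    intro v hv
    have hu0 : col b u = false := hv.1.2
    refine Con.induct hv (fun w => ∀ a, sd (HDW_s a) w ≤ 1 → G.Reachable a₀ a) ?_ ?_
    · intro a ha
      by_cases hmix : Even (u.1 + u.2)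
      · have h1 := HDW_col_dual hu0
        rw [Int.even_iff] at hmix
        unfold sd HDW_s at ha
        simp only at ha
        have : a = a₀ := by
          rw [ha₀]
          ext
          · simp only
            omega
          · simp only
            omega
        rw [this]
      · rcases HDW_pair hSI hb hu0 hmix (HDW_near u) ha with h | h
        · rw [← h]
        · exact h.reachable
    · rintro w w' ⟨-, hw⟩ ⟨-, hw'⟩ hadj - ih a ha
      by_cases hmix : Even (w'.1 + w'.2)
      · -- `w'` is dual, `w` is mixed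
        have h1 := HDW_col_dual hw'
        refine ih a ?_
        rw [Int.even_iff] at hmix
        have h2 := hadj.1
        unfold sd HDW_s at ha ⊢
        unfold sd at h2
        simp only at ha ⊢
        omega
      · -- `w'` is mixed, `w` is dual
        have h1 := HDW_col_dual hw
        have hsum : Even (w.1 + w.2) := by
          rw [Int.even_iff] at hmix ⊢
          have h2 := hadj.1
          have h3 := hadj.2
          rw [Int.even_iff] at h3
          unfold sd at h2
          omega
        set a₁ : ℤ × ℤ := (w.1 / 2, w.2 / 2) with ha₁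
        have h3 : G.Reachable a₀ a₁ := ih a₁ (HDW_near w)
        have h4 : sd (HDW_s a₁) w' ≤ 1 := by
          have h2 := hadj.1
          rw [Int.even_iff] at hsum
          unfold sd HDW_s
          unfold sd at h2
          rw [ha₁]
          simp only
          omega
        rcases HDW_pair hSI hb hw' hmix h4 ha with h | h
        · rw [← h]; exact h3
        · exact h3.trans h.reachable
  refine ⟨G.connectedComponentMk a₀, ?_⟩
  intro hfin
  apply hu
  refine Set.Finite.subset (hfin.biUnion fun a _ => HDW_fin a) ?_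
  intro v hv
  rw [Set.mem_iUnion₂]
  refine ⟨(v.1 / 2, v.2 / 2), ?_, HDW_near v⟩
  rw [SimpleGraph.ConnectedComponent.mem_supp_iff, SimpleGraph.ConnectedComponent.eq]
  exact (hreach v hv _ (HDW_near v)).symm

end DP
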