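import Pool.Agent.helper96.DP.SpecE
import Pool.Agent.helper96.DP.Basic

/-!
# Module SE2 of project dp: marked arms at separated points and standard arms
-/

namespace DP

open MeasureTheory

theorem SE2_Q_univ (ρ : V → ℝ) : Q ρ Set.univ Set.univ = 1 := by
  have : IsProbabilityMeasure (PP ρ) := by
    unfold PP
    infer_instance
  unfold Q
  simp

/-- Region on which the marked arms of colour `k` depend. -/
def SE2_R (j : ℕ) (s : Bool) (x : V) (n : ℕ) (D : Dat) (y : ℕ → V) (A : ℕ) (k : Bool) : Set V :=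
  HS s x n \ (D.N k ∪ opp j y A k)

theorem SE2_R_finite {j : ℕ} {s : Bool} {x : V} {n r : ℕ} {D : Dat} {y : ℕ → V} {A : ℕ} {k : Bool}
    (hD : D.ok s x r) : (SE2_R j s x n D y A k).Finite := by
  cases s with
  | true =>
    refine (box_finite x n).subset ?_
    rintro v ⟨h1, _⟩
    exact h1
  | false =>
    obtain ⟨M, hM⟩ : ∃ M, ∀ k, {v | M < sd x v} ⊆ D.N k := by
      unfold Dat.ok at hD
      simp only [Bool.false_eq_true, if_false] at hD
      exact hD.2.2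
    refine (box_finite x M).subset ?_
    rintro v ⟨_, h2⟩
    by_contra h3
    have h4 : M < sd x v := by
      have h5 : ¬ sd x v ≤ M := h3
      omega
    exact h2 (Or.inl (hM k h4))

theorem SE2_MrkC_congr {c c' : V → Bool} {j : ℕ} {s : Bool} {x : V} {n : ℕ} {D : Dat} {y : ℕ → V}
    {a A : ℕ} {k : Bool} (h : ∀ v ∈ SE2_R j s x n D y A k, c v = c' v) :
    MrkC c j s x n D y a A k ↔ MrkC c' j s x n D y a A k := by
  have key : ∀ p u, Conn c k (HS s x n \ (D.N k ∪ opp j y A k)) p u ↔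
      Conn c' k (HS s x n \ (D.N k ∪ opp j y A k)) p u := fun p u => Conn.congr h
  unfold MrkC
  simp only [key]

theorem SE2_MrkC_mono {c c' : V → Bool} {j : ℕ} {s : Bool} {x : V} {n : ℕ} {D : Dat} {y : ℕ → V}
    {a A : ℕ} {k : Bool} (h : ∀ v, c v = k → c' v = k) (hm : MrkC c j s x n D y a A k) :
    MrkC c' j s x n D y a A k := by
  have key : ∀ p u, Conn c k (HS s x n \ (D.N k ∪ opp j y A k)) p u →
      Conn c' k (HS s x n \ (D.N k ∪ opp j y A k)) p u := fun p u =>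
    Conn.colour_mono fun v _ => h v
  rcases hm with hm | hm
  · left
    intro i hi hk
    obtain ⟨p, hp, u, hu, h1, h2⟩ := hm i hi hk
    exact ⟨p, hp, u, hu, h1, key _ _ h2⟩
  · right
    intro i hi hk
    obtain ⟨p, hp, u, hu, h1, h2⟩ := hm i hi hk
    exact ⟨p, hp, u, hu, h1, key _ _ h2⟩

/-- All chains of colour `k` with index below `m` are full. -/
def SE2_U (k : Bool) (ℓ : ℕ) (gs : ℕ → List V) (m : ℕ) : Set (V → Bool) :=
  Ev fun c => ∀ l < m, kol l = k → Full c k ℓ (gs l)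

/-- Union of the regions of the chains of colour `k`. -/
def SE2_S (k : Bool) (ℓ : ℕ) (gs : ℕ → List V) (j : ℕ) : Set V :=
  {v | ∃ l < j, kol l = k ∧ v ∈ reg ℓ (gs l)}

theorem SE2_U_succ_pos {k : Bool} {ℓ : ℕ} {gs : ℕ → List V} {m : ℕ} (h : kol m = k) :
    SE2_U k ℓ gs (m + 1) = SE2_U k ℓ gs m ∩ Ev fun c => Full c k ℓ (gs m) := by
  ext b
  constructor
  · intro hb
    exact ⟨fun l hl => hb l (by omega), hb m (by omega) h⟩
  · rintro ⟨h1, h2⟩ l hl hk
    rcases Nat.lt_succ_iff_lt_or_eq.1 hl with h3 | h3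
    · exact h1 l h3 hk
    · rw [h3]; exact h2

theorem SE2_U_succ_neg {k : Bool} {ℓ : ℕ} {gs : ℕ → List V} {m : ℕ} (h : kol m ≠ k) :
    SE2_U k ℓ gs (m + 1) = SE2_U k ℓ gs m := by
  ext b
  constructor
  · intro hb l hl
    exact hb l (by omega)
  · intro h1 l hl hk
    rcases Nat.lt_succ_iff_lt_or_eq.1 hl with h3 | h3
    · exact h1 l h3 hk
    · rw [h3] at hk; exact absurd hk h

theorem SE2_U_zero {k : Bool} {ℓ : ℕ} {gs : ℕ → List V} : SE2_U k ℓ gs 0 = Set.univ := by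
  ext b
  constructor
  · intro _
    trivial
  · intro _ l hl
    omega

theorem SE2_U_loc (hCH4 : CH4_stmt) (k : Bool) (ℓ : ℕ) (gs : ℕ → List V) (j : ℕ) :
    ∀ m ≤ j, Loc (SE2_U k ℓ gs m) (SE2_S k ℓ gs j) := by
  intro m
  induction m with
  | zero => intro _; rw [SE2_U_zero]; exact Loc.univ _
  | succ m ih =>
    intro hm
    by_cases h : kol m = k
    · rw [SE2_U_succ_pos h]
      refine Loc.mono ((ih (by omega)).inter (hCH4 ℓ k (gs m)).1) ?_
      rintro v (hv | hv)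
      · exact hv
      · exact ⟨m, by omega, h, hv⟩
    · rw [SE2_U_succ_neg h]
      exact ih (by omega)

theorem SE2_U_mon (hCH4 : CH4_stmt) (k : Bool) (ℓ : ℕ) (gs : ℕ → List V) (m : ℕ) :
    Mon k (SE2_U k ℓ gs m) := fun b b' hb hall l hl hk =>
  (hCH4 ℓ k (gs l)).2 b b' hb (hall l hl hk)

theorem SE2_U_prob (hfkg : Bfkg_stmt) (hCH3 : CH3_stmt) (hCH4 : CH4_stmt) (c₀ : ℝ) (h0 : 0 ≤ c₀)
    (h1 : c₀ ≤ 1) (k : Bool) (ℓ : ℕ) (ρ : V → ℝ) (hρ : Profile ρ)
    (hC : ∀ g, c₀ ≤ Pr (Ev fun c => ∃ S, Loop c k g ℓ S)) (gs : ℕ → List V) (j K : ℕ)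
    (hK : ∀ l < j, (gs l).length ≤ K) :
    ∀ m ≤ j, c₀ ^ (2 * K * m) ≤ Q ρ (SE2_U k ℓ gs m) (SE2_U k ℓ gs m) := by
  intro m
  induction m with
  | zero =>
    intro _
    rw [SE2_U_zero, SE2_Q_univ]
    simp
  | succ m ih =>
    intro hm
    have ihm := ih (by omega)
    by_cases h : kol m = k
    · rw [SE2_U_succ_pos h]
      have h2 := hCH3 c₀ ℓ k ρ (gs m) hρ h0 hC
      have h3 : c₀ ^ (2 * K) ≤ c₀ ^ (2 * (gs m).length) :=
        pow_le_pow_of_le_one h0 h1 (by have := hK m (by omega); omega)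
      have h4 : c₀ ^ (2 * K * (m + 1)) = c₀ ^ (2 * K * m) * c₀ ^ (2 * K) := by
        rw [← pow_add]; congr 1
      rw [h4]
      refine le_trans ?_ (hfkg ρ k (SE2_U k ℓ gs m) (Ev fun c => Full c k ℓ (gs m)) Set.univ
        ((SE2_U_loc hCH4 k ℓ gs m m le_rfl).mono (Set.subset_univ _))
        ((hCH4 ℓ k (gs m)).1.mono (Set.subset_univ _)) (SE2_U_mon hCH4 k ℓ gs m)
        (hCH4 ℓ k (gs m)).2)
      exact mul_le_mul ihm (h3.trans h2) (pow_nonneg h0 _) (le_trans (pow_nonneg h0 _) ihm)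
    · rw [SE2_U_succ_neg h]
      refine le_trans ?_ ihm
      exact pow_le_pow_of_le_one h0 h1 (Nat.mul_le_mul_left _ (by omega))

theorem SE2_kol_parity {l l' : ℕ} (h : kol l ≠ kol l') : l' % 2 ≠ l % 2 := by
  intro h'
  apply h
  unfold kol
  rw [h']

theorem SE2 (hRT : RT_stmt) (hMI : MI_stmt) (hgen : Bgen_stmt) (hfkg : Bfkg_stmt)
    (hmono : Bmono_stmt) (hCH3 : CH3_stmt) (hCH4 : CH4_stmt) (hC1 : C1_stmt) : SE2_stmt := by
  obtain ⟨c₀, hc₀, ℓ₀, hℓ₀, hC⟩ := hC1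
  have hc1 : c₀ ≤ 1 := by
    refine le_trans (hC true (0, 0) ℓ₀ le_rfl) ?_
    have : IsProbabilityMeasure P1 := by
      unfold P1
      infer_instance
    exact measureReal_le_one
  intro d e hde he4
  obtain ⟨h, K, i₁, heh, hhi, hR⟩ := hRT d e hde
  refine ⟨h, heh, 1 / (c₀ ^ (2 * K * 4) * c₀ ^ (2 * K * 4)), by positivity, i₁ + h + ℓ₀, by omega, ?_⟩
  intro j s ρ x D Xp Xm i y hj hρ hx hi hD hX hy hOrd hsep
  obtain ⟨π, gs, hπ0, hπ1, hgs⟩ := hR j s x i y hj (by omega) hy hOrd hsep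
  have hj4 : j ≤ 4 := by omega
  set ℓ := 2 ^ (i - h) with hℓ
  set n := 2 ^ i with hn
  set A := 2 ^ (i - e) with hA
  have hℓ₀' : ℓ₀ ≤ ℓ := by
    have h1 : ℓ₀ < 2 ^ ℓ₀ := Nat.lt_two_pow_self
    have h2 : 2 ^ ℓ₀ ≤ 2 ^ (i - h) := Nat.pow_le_pow_right (by norm_num) (by omega)
    omega
  have hnA : 16 * A ≤ n := by
    have h1 : 16 * 2 ^ (i - e) = 2 ^ (i - e + 4) := by
      rw [pow_add]; ring
    rw [hA, h1, hn]
    exact Nat.pow_le_pow_right (by norm_num) (by omega)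
  have hApos : 1 ≤ A := Nat.one_le_two_pow
  -- the regions of the chains are away from the far data
  have hregHS : ∀ l < j, ∀ v ∈ reg ℓ (gs l), v ∈ HS s x n → sd (y l) v ≤ A := fun l hl v hv =>
    (hgs l hl).2.2.2.2.1 v hv
  have hnear : ∀ l < j, ∀ v, sd (y l) v ≤ A → n ≤ sd x v + A ∧ sd x v ≤ n + A := by
    intro l hl v hv
    have h1 : sd x (y l) = n := hy l hl
    have h2 := sd_triangle x (y l) v
    have h3 := sd_triangle x v (y l)
    rw [sd_comm v (y l)] at h3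
    omega
  have hfar : ∀ l < j, ∀ v ∈ reg ℓ (gs l),
      ¬ (if s = true then sd x v ≤ 2 ^ (i - 1) else 2 ^ (i + 1) ≤ sd x v) := by
    intro l hl v hv hcon
    have hi1 : 2 * 2 ^ (i - 1) = n := by
      rw [hn, ← pow_succ']
      congr 1
      omega
    have hi2 : 2 ^ (i + 1) = 2 * n := by
      rw [hn, pow_succ]; ring
    cases s with
    | true =>
      simp only [if_true] at hcon
      have h1 : v ∈ HS true x n := by
        show sd x v ≤ n
        omega
      have h2 := hnear l hl v (hregHS l hl v hv h1)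
      omega
    | false =>
      simp only [Bool.false_eq_true, if_false] at hcon
      rw [hi2] at hcon
      have h1 : v ∈ HS false x n := by
        show n ≤ sd x v
        omega
      have h2 := hnear l hl v (hregHS l hl v hv h1)
      omega
  have hR_away : ∀ k, ∀ v ∈ SE2_R j s x n D y A k, v ∉ SE2_S (!k) ℓ gs j := by
    rintro k v ⟨hv1, hv2⟩ ⟨l, hl, hk, hv⟩
    refine hv2 (Or.inr ⟨l, hl, ?_, hregHS l hl v hv hv1⟩)
    rw [hk]
    cases k <;> simp
  -- locality of the far events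
  have hXloc : ∀ k, ∀ X : Set (V → Bool),
      (if s = true then Loc X (box x (2 ^ (i - 1))) else Loc X {v | 2 ^ (i + 1) ≤ sd x v}) →
        Loc X (SE2_S k ℓ gs j)ᶜ := by
    intro k X hX
    cases s with
    | true =>
      simp only [if_true] at hX hfar
      refine hX.mono ?_
      rintro v hv ⟨l, hl, _, hv'⟩
      exact hfar l hl v hv' hv
    | false =>
      simp only [Bool.false_eq_true, if_false] at hX hfar
      refine hX.mono ?_
      rintro v hv ⟨l, hl, _, hv'⟩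
      exact hfar l hl v hv' hv
  obtain ⟨hXp, hXm, hXloc'⟩ := hX
  have hXp' : Loc Xp (SE2_S false ℓ gs j)ᶜ := by
    refine hXloc false Xp ?_
    cases s with
    | true =>
      simp only [if_true] at hXloc' ⊢
      exact hXloc'.1
    | false =>
      simp only [Bool.false_eq_true, if_false] at hXloc' ⊢
      exact hXloc'.1
  have hXm' : Loc Xm (SE2_S true ℓ gs j)ᶜ := by
    refine hXloc true Xm ?_
    cases s with
    | true =>
      simp only [if_true] at hXloc' ⊢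
      exact hXloc'.2
    | false =>
      simp only [Bool.false_eq_true, if_false] at hXloc' ⊢
      exact hXloc'.2
  have hMrkloc : ∀ k, Loc (Ev fun c => MrkC c j s x n D y ℓ A k) (SE2_R j s x n D y A k) :=
    fun k => Loc.ev (SE2_R_finite hD) fun c c' hcc => SE2_MrkC_congr hcc
  have hMrkmon : ∀ k, Mon k (Ev fun c => MrkC c j s x n D y ℓ A k) := fun k =>
    Mon.ev fun c c' hcc => SE2_MrkC_mono hcc
  set Sp := SE2_S true ℓ gs j with hSp
  set Sm := SE2_S false ℓ gs j with hSm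
  set S : Set V := (Sp ∪ Sm)ᶜ with hS
  have hSpm : Disjoint Sp Sm := by
    rw [Set.disjoint_left]
    rintro v ⟨l, hl, hk, hv⟩ ⟨l', hl', hk', hv'⟩
    have h1 : l' % 2 ≠ l % 2 := SE2_kol_parity (by rw [hk, hk']; simp)
    exact Set.disjoint_left.1 ((hgs l hl).2.2.2.2.2.2 l' hl' h1).2 hv hv'
  have hEp : Loc (Xp ∩ Ev fun c => MrkC c j s x n D y ℓ A true) (S ∪ Sp) := by
    refine (hXp'.inter (hMrkloc true)).mono ?_
    intro v hv
    have hvm : v ∉ Sm := by
      rcases hv with hv | hv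
      · exact hv
      · exact hR_away true v hv
    by_cases h1 : v ∈ Sp
    · exact Or.inr h1
    · refine Or.inl ?_
      rintro (h2 | h2)
      · exact h1 h2
      · exact hvm h2
  have hEm : Loc (Xm ∩ Ev fun c => MrkC c j s x n D y ℓ A false) (S ∪ Sm) := by
    refine (hXm'.inter (hMrkloc false)).mono ?_
    intro v hv
    have hvp : v ∉ Sp := by
      rcases hv with hv | hv
      · exact hv
      · exact hR_away false v hv
    by_cases h1 : v ∈ Sm
    · exact Or.inr h1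
    · refine Or.inl ?_
      rintro (h2 | h2)
      · exact hvp h2
      · exact h1 h2
  have hG := hgen ρ (Xp ∩ Ev fun c => MrkC c j s x n D y ℓ A true)
    (Xm ∩ Ev fun c => MrkC c j s x n D y ℓ A false) (SE2_U true ℓ gs j) (SE2_U false ℓ gs j) S Sp Sm
    (Set.disjoint_left.2 fun v hv hv' => hv (Or.inl hv'))
    (Set.disjoint_left.2 fun v hv hv' => hv (Or.inr hv')) hSpm hEp hEm
    (SE2_U_loc hCH4 true ℓ gs j j le_rfl) (SE2_U_loc hCH4 false ℓ gs j j le_rfl)
    (hXp.inter (hMrkmon true)) (hXm.inter (hMrkmon false)) (SE2_U_mon hCH4 true ℓ gs j)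
    (SE2_U_mon hCH4 false ℓ gs j)
  have hKl : ∀ l < j, (gs l).length ≤ K := fun l hl => (hgs l hl).2.2.1
  have hq : ∀ k, c₀ ^ (2 * K * 4) ≤ Q ρ (SE2_U k ℓ gs j) (SE2_U k ℓ gs j) := fun k =>
    le_trans (pow_le_pow_of_le_one hc₀.le hc1 (Nat.mul_le_mul_left _ hj4))
      (SE2_U_prob hfkg hCH3 hCH4 c₀ hc₀.le hc1 k ℓ ρ hρ (fun g => hC k g ℓ hℓ₀') gs j K hKl j le_rfl)
  have hsub : (Xp ∩ Ev fun c => MrkC c j s x n D y ℓ A true) ∩
      (Xm ∩ Ev fun c => MrkC c j s x n D y ℓ A false) ∩ (SE2_U true ℓ gs j ∩ SE2_U false ℓ gs j) ⊆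
        (Xp ∩ Xm) ∩ Ev fun c => Std c j s x (nx s n) D := by
    rintro b ⟨⟨⟨h1, h2⟩, h3, h4⟩, h5, h6⟩
    refine ⟨⟨h1, h3⟩, ?_⟩
    refine hMI (col b) j s x i h e D y π gs hj hx heh (by omega) he4 hD hy hπ0 hπ1 ?_ ⟨h2, h4⟩ ?_
    · intro l hl
      obtain ⟨a1, a2, a3, ⟨g, r, a4, a5, a6⟩, a7, a8, a9⟩ := hgs l hl
      refine ⟨a1, a2, ⟨g, r, a4, a5, ?_⟩, a7, a8, fun l' hl' hne => (a9 l' hl' hne).1⟩
      cases s with
      | true =>
        simp only [if_true] at a6 ⊢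
        exact a6.1
      | false =>
        simp only [Bool.false_eq_true, if_false] at a6 ⊢
        exact a6
    · intro l hl
      cases hk : kol l with
      | true => exact h5 l hl hk
      | false => exact h6 l hl hk
  have hM := hmono ρ _ _ _ _ hsub hsub
  have hset : (Xp ∩ Xm) ∩ Ev (fun c => Mrk c j s x n D y ℓ A) =
      (Xp ∩ Ev fun c => MrkC c j s x n D y ℓ A true) ∩
        (Xm ∩ Ev fun c => MrkC c j s x n D y ℓ A false) := by
    ext b
    constructor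
    · rintro ⟨⟨h1, h2⟩, h3, h4⟩
      exact ⟨⟨h1, h3⟩, h2, h4⟩
    · rintro ⟨⟨h1, h3⟩, h2, h4⟩
      exact ⟨⟨h1, h2⟩, h3, h4⟩
  rw [hset]
  have hcp : 0 < c₀ ^ (2 * K * 4) := by positivity
  have hQ0 : 0 ≤ Q ρ ((Xp ∩ Ev fun c => MrkC c j s x n D y ℓ A true) ∩
      (Xm ∩ Ev fun c => MrkC c j s x n D y ℓ A false))
      ((Xp ∩ Ev fun c => MrkC c j s x n D y ℓ A true) ∩
      (Xm ∩ Ev fun c => MrkC c j s x n D y ℓ A false)) := measureReal_nonneg
  have hprod : c₀ ^ (2 * K * 4) * c₀ ^ (2 * K * 4) ≤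
      Q ρ (SE2_U true ℓ gs j) (SE2_U true ℓ gs j) *
        Q ρ (SE2_U false ℓ gs j) (SE2_U false ℓ gs j) :=
    mul_le_mul (hq true) (hq false) hcp.le (hcp.le.trans (hq true))
  rw [one_div_mul_eq_div, le_div_iff₀ (by positivity)]
  exact le_trans (mul_le_mul_of_nonneg_left hprod hQ0) (hG.trans hM)

end DP
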